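import Pool.Agent.Q283.FG.Stm2
import Pool.Agent.Q123.LK.SH2

/-!
# Project FG of helper283: job SNG (helper277), after `Pool/Agent/Q31/FT/SNG.lean`
-/

set_option autoImplicit false

namespace Pool.Agent.Q277.FG.SNG

open NumberField IsDedekindDomain Finset
open Pool.Agent.Q283.LQ (Sm Box Nest nS)
open Pool.Agent.Q7.LK
open Pool.Agent.Q283.FT (U2 Rt df Dcl)
open Pool.Agent.Q283.FG
open Pool.Agent.Q123.LK

theorem df_ne {F : Type} [Field F] {e : Fin 3 → F} (h : Function.Injective e) (l : Fin 3) : df e l ≠ 0 := by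
  unfold df
  split_ifs
  · exact sub_ne_zero.mpr fun h' => absurd (h h') (by decide)
  · exact sub_ne_zero.mpr fun h' => absurd (h h') (by decide)
  · exact sub_ne_zero.mpr fun h' => absurd (h h') (by decide)

theorem mon_single {F : Type} [Field F] {f : ℕ} {u : Fin f → F} {t₀ : Fin f} (h : u t₀ = -1) :
    mon u (Pi.single t₀ (1 : ZMod 2)) = -1 := by
  have h1 : (1 : ZMod 2).val = 1 := rfl
  have h0 : (0 : ZMod 2).val = 0 := rfl
  unfold mon
  rw [Finset.prod_eq_single t₀]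
  · rw [Pi.single_eq_same, h1, pow_one, h]
  · intro l _ hl
    rw [Pi.single_eq_of_ne hl, h0, pow_zero]
  · intro h2
    exact absurd (Finset.mem_univ t₀) h2

/-- the product of two squares classes -/
theorem ip_mul {F : Type} [Field F] {f : ℕ} {u : Fin f → F} (hu : ∀ l, u l ≠ 0)
    {a b : F} {c c' : Fin f → ZMod 2}
    (h : IsPow 2 (a * mon u c)) (h' : IsPow 2 (b * mon u c')) :
    IsPow 2 (a * b * mon u (c + c')) := by
  obtain ⟨x, hx⟩ := h
  obtain ⟨x', hx'⟩ := h'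
  have h2 : Eqv 2 (mon u c * mon u c') (mon u (c + c')) := by
    have h3 := eqv_mon (p := 2) hu (fun l => (c l).val + (c' l).val) (c + c') (fun l => by
      rw [Nat.cast_add, ZMod.natCast_zmod_val, ZMod.natCast_zmod_val, Pi.add_apply])
    have h4 : ∏ l, u l ^ ((c l).val + (c' l).val) = mon u c * mon u c' := by
      unfold mon
      rw [← Finset.prod_mul_distrib]
      exact Finset.prod_congr rfl fun l _ => pow_add _ _ _
    rwa [h4] at h3
  obtain ⟨z, hz, hzz⟩ := h2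
  refine ⟨x * x' * z⁻¹, ?_⟩
  have hz2 : z ^ 2 ≠ 0 := pow_ne_zero 2 hz
  have h5 : a * b * mon u (c + c') * z ^ 2 = (x * x') ^ 2 := by
    calc a * b * mon u (c + c') * z ^ 2 = a * b * (mon u (c + c') * z ^ 2) := by ring
      _ = a * b * (mon u c * mon u c') := by rw [← hzz]
      _ = (a * mon u c) * (b * mon u c') := by ring
      _ = (x * x') ^ 2 := by rw [hx, hx', mul_pow]
  rw [mul_pow, inv_pow, ← h5, mul_inv_cancel_right₀ hz2]

theorem nr_ip (hB : S_BAS) {F : Type} [Field F] [NumberField F] {f : ℕ} {u : Fin f → F} (hu : ∀ l, u l ≠ 0)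
    (r : Fin f → F) (y : ℕ) {a : F} (ha : a ≠ 0) {c : Fin f → ZMod 2}
    (h : IsPow 2 (a * mon u c)) : Nr y (a * mon r (0 : Fin f → ZMod 2) * mon u c) := by
  have h1 : mon r (0 : Fin f → ZMod 2) = 1 := by
    unfold mon
    simp
  rw [h1, mul_one]
  obtain ⟨x, hx⟩ := h
  have hx0 : x ≠ 0 := by
    rintro rfl
    rw [zero_pow two_ne_zero] at hx
    exact mul_ne_zero ha (mon_ne hu c) hx
  refine ⟨nn_eqv hB (b := 1) ⟨x, hx0, ?_⟩ (nn_one hB y), fun φ => ?_⟩
  · rw [hx, one_mul]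
  · rw [hx, map_pow]
    have h2 : φ x ≠ 0 := (map_ne_zero φ).2 hx0
    positivity

/-- every class is that of a nonzero element -/
theorem ex_cls (hB : S_BAS) {F : Type} [Field F] [NumberField F] {f : ℕ} {u r : Fin f → F} (hu : ∀ l, u l ≠ 0)
    (hr : ∀ l, r l ≠ 0) (y : ℕ) (x x' : Fin f → ZMod 2) :
    ∃ a : F, a ≠ 0 ∧ Nr y (a * mon r x * mon u x') := by
  refine ⟨(mon r x * mon u x')⁻¹, inv_ne_zero (mul_ne_zero (mon_ne hr x) (mon_ne hu x')), ?_⟩
  rw [mul_assoc, inv_mul_cancel₀ (mul_ne_zero (mon_ne hr x) (mon_ne hu x'))]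
  refine ⟨nn_one hB y, fun φ => ?_⟩
  rw [map_one]
  exact one_pos

end Pool.Agent.Q277.FG.SNG

namespace Pool.Agent.Q277.FG

open NumberField IsDedekindDomain Finset
open Pool.Agent.Q283.LQ (Sm Box Nest nS)
open Pool.Agent.Q7.LK
open Pool.Agent.Q283.FT (U2 Rt df Dcl)
open Pool.Agent.Q283.FG
open Pool.Agent.Q277.FG.SNG

/-- **JOB SNG** -/
theorem sng (hDJS : Pool.Agent.Q283.FG.S_DJS) (hBAS : Pool.Agent.Q7.LK.S_BAS) : Pool.Agent.Q283.FG.S_SNG := by
  intro F _ _ ζ hζ t s hT y f t₀ u r π hbase hF hu0 hfin e c hR hc A R hA hloc hreal 𝓛 hM w z hz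
  obtain ⟨a, ha, hacl⟩ := ex_cls hBAS hbase.ue hbase.re y (fun t => (z.2 t).1) (fun t => (z.1 t).1)
  obtain ⟨b, hb, hbcl⟩ := ex_cls hBAS hbase.ue hbase.re y (fun t => (z.2 t).2) (fun t => (z.1 t).2)
  have hmem := (hM a b (fun t => (z.2 t).1, fun t => (z.1 t).1) (fun t => (z.2 t).2, fun t => (z.1 t).2)
    ha hb hacl hbcl).mp hz
  have hd := df_ne hR.inj
  have h1 : IsPow 2 (-1 * mon u (Pi.single t₀ (1 : ZMod 2))) := by
    rw [mon_single hu0]
    exact ⟨1, by norm_num⟩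
  have i02 : IsPow 2 (-(df e 0 * df e 2) * mon u (c 0 + c 2 + Pi.single t₀ 1)) := by
    have h2 := ip_mul hbase.ue (ip_mul hbase.ue (hc 0) (hc 2)) h1
    have h3 : df e 0 * df e 2 * -1 = -(df e 0 * df e 2) := by ring
    rwa [h3] at h2
  have h02 := nr_ip hBAS hbase.ue r y (neg_ne_zero.2 (mul_ne_zero (hd 0) (hd 2))) i02
  have h12 := nr_ip hBAS hbase.ue r y (mul_ne_zero (hd 1) (hd 2)) (ip_mul hbase.ue (hc 1) (hc 2))
  have f1 := hF a b (fun t => (z.2 t).1, fun t => (z.1 t).1) (fun t => (z.2 t).2, fun t => (z.1 t).2)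
    ha hb hacl hbcl
  have f2 := hF a (-(df e 0 * df e 2)) (fun t => (z.2 t).1, fun t => (z.1 t).1)
    (0, c 0 + c 2 + Pi.single t₀ 1) ha (neg_ne_zero.2 (mul_ne_zero (hd 0) (hd 2))) hacl h02
  have f3 := hF b (df e 1 * df e 2) (fun t => (z.2 t).2, fun t => (z.1 t).2) (0, c 1 + c 2)
    hb (mul_ne_zero (hd 1) (hd 2)) hbcl h12
  have hdot : ∀ s : Fin f → ZMod 2, dot (0 : Fin f → ZMod 2) s = 0 := by
    intro s
    simp [dot]
  have hdot2 : ∀ x : Fin f → ZMod 2, dot x (c 0 + c 2 + Pi.single t₀ 1) = dot x (c 0 + c 2) + x t₀ := by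
    intro x
    unfold dot
    have h2 : ∑ l, x l * (Pi.single t₀ (1 : ZMod 2) : Fin f → ZMod 2) l = x t₀ := by
      rw [Finset.sum_eq_single t₀]
      · rw [Pi.single_eq_same, mul_one]
      · intro l _ hl
        rw [Pi.single_eq_of_ne hl, mul_zero]
      · intro h2
        exact absurd (Finset.mem_univ t₀) h2
    rw [← h2, ← Finset.sum_add_distrib]
    exact Finset.sum_congr rfl fun l _ => by
      rw [Pi.add_apply (c 0 + c 2), mul_add]
  simp only [hdot, gs, Pi.zero_apply, mul_zero, add_zero, hdot2] at f2 f3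
  simp only [gs] at f1
  rw [(hDJS f t₀ c w 𝓛).2.2 z]
  have : Finite {v : HeightOneSpectrum (𝓞 F) // Sm y v} := hfin.to_subtype
  have : Fintype {v : HeightOneSpectrum (𝓞 F) // Sm y v} := Fintype.ofFinite _
  have hS : (∑ᶠ v : {v : HeightOneSpectrum (𝓞 F) // Sm y v}, t v.1 a b) +
      (∑ᶠ v : {v : HeightOneSpectrum (𝓞 F) // Sm y v}, t v.1 a (-(df e 0 * df e 2))) +
      (∑ᶠ v : {v : HeightOneSpectrum (𝓞 F) // Sm y v}, t v.1 b (df e 1 * df e 2)) = 0 := by
    simp only [finsum_eq_sum_of_fintype]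
    rw [← Finset.sum_add_distrib, ← Finset.sum_add_distrib]
    exact Finset.sum_eq_zero fun v _ => hloc v.1 a b v.2 (hmem.1 v.1 v.2)
  have hS2 : (∑ᶠ φ : F →+* ℝ, s φ a b) + (∑ᶠ φ : F →+* ℝ, s φ a (-(df e 0 * df e 2))) +
      (∑ᶠ φ : F →+* ℝ, s φ b (df e 1 * df e 2)) = 0 := by
    have : Fintype (F →+* ℝ) := Fintype.ofFinite _
    simp only [finsum_eq_sum_of_fintype]
    rw [← Finset.sum_add_distrib, ← Finset.sum_add_distrib]
    exact Finset.sum_eq_zero fun φ _ => hreal φ a b (hmem.2 φ)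
  linear_combination -f1 - f2 - f3 + hS + hS2

end Pool.Agent.Q277.FG
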