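import Pool.Agent.Q283.FG.Stm2
import Pool.Agent.Q283.FG.Stm1
import Pool.Agent.Q176.EN.SSX

/-!
# Project FG of helper283, job SXX: the classes are the solutions of the table (helper277), after
`Pool/Agent/Q150/FT/SXX.lean` and `Pool/Agent/Q176/EN/SSX.lean`
-/

set_option autoImplicit false
set_option linter.unusedSectionVars false

namespace Pool.Agent.Q277.FG.SXX

open NumberField IsDedekindDomain Finset
open Pool.Agent.Q7.LK hiding S_SH1
open Pool.Agent.Q123.LK Pool.Agent.Q283.FG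
open Pool.Agent.Q283.FT (U2 Rt twi df HasN2 Dcl)
open Pool.Agent.Q176.EN (sum_ite_q sum_ite_none vl_D Rl el)
open Pool.Agent.Q283.LQ (Sm Box Nest nS)
open Q44.JQ (rowL clL Sel)

variable {F : Type} [Field F] [NumberField F]

/-- the first components -/
def cX {f k : ℕ} (X : (Fin f → U2) × (Fin k → U2)) : (Fin f → ZMod 2) × (Fin k → ZMod 2) :=
  (fun t => (X.1 t).1, fun j => (X.2 j).1)

/-- the second components -/
def cY {f k : ℕ} (X : (Fin f → U2) × (Fin k → U2)) : (Fin f → ZMod 2) × (Fin k → ZMod 2) :=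
  (fun t => (X.1 t).2, fun j => (X.2 j).2)

theorem ext_c {f k : ℕ} {X X' : (Fin f → U2) × (Fin k → U2)} (h : cX X = cX X') (h' : cY X = cY X') :
    X = X' := by
  refine Prod.ext (funext fun t => Prod.ext ?_ ?_) (funext fun j => Prod.ext ?_ ?_)
  · exact congrFun (congrArg Prod.fst h) t
  · exact congrFun (congrArg Prod.fst h') t
  · exact congrFun (congrArg Prod.snd h) j
  · exact congrFun (congrArg Prod.snd h') j

/-- the first test element -/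
def Ea (e : Fin 3 → F) (D a : F) (x : U2) : F :=
  a * D ^ x.1.val * (df e 2 ^ (x.1 + x.2).val * df e 1 ^ x.2.val) * (-1) ^ x.1.val

/-- the second test element -/
def Eb (e : Fin 3 → F) (D b : F) (x : U2) : F :=
  b * D ^ x.2.val * (df e 2 ^ (x.1 + x.2).val * df e 0 ^ x.1.val) * (-1) ^ x.1.val

theorem df_twi (D : F) (e : Fin 3 → F) (l : Fin 3) : df (twi D e) l = D * df e l := by
  unfold df twi
  split_ifs <;> ring

theorem z2 : ∀ x : ZMod 2, x = 0 ∨ x = 1 := by decide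

theorem tx_iff (hB : S_BAS) {v : HeightOneSpectrum (𝓞 F)} {e : Fin 3 → F} {D a b : F} (hD : D ≠ 0) :
    TX v (twi D e) a b ↔ ∃ x : U2, Lpw 2 v (Ea e D a x) ∧ Lpw 2 v (Eb e D b x) := by
  have : Fact (Nat.Prime 2) := ⟨Nat.prime_two⟩
  have v0 : (0 : ZMod 2).val = 0 := rfl
  have v1 : (1 : ZMod 2).val = 1 := rfl
  have v00 : ((0 : ZMod 2) + 0).val = 0 := rfl
  have v01 : ((0 : ZMod 2) + 1).val = 1 := rfl
  have v10 : ((1 : ZMod 2) + 0).val = 1 := rfl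
  have v11 : ((1 : ZMod 2) + 1).val = 0 := rfl
  have A00 : Ea e D a (0, 0) = a := by
    unfold Ea
    simp only [v0, v00, pow_zero, mul_one]
  have A01 : Ea e D a (0, 1) = a * (df e 2 * df e 1) := by
    unfold Ea
    simp only [v0, v01, v1, pow_zero, pow_one, mul_one]
  have A10 : Ea e D a (1, 0) = a * D * df e 2 * (-1) := by
    unfold Ea
    simp only [v0, v10, v1, pow_zero, pow_one, mul_one]
  have A11 : Ea e D a (1, 1) = a * D * df e 1 * (-1) := by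
    unfold Ea
    simp only [v11, v1, pow_zero, pow_one, one_mul]
  have B00 : Eb e D b (0, 0) = b := by
    unfold Eb
    simp only [v0, v00, pow_zero, mul_one]
  have B01 : Eb e D b (0, 1) = b * D * df e 2 := by
    unfold Eb
    simp only [v0, v01, v1, pow_zero, pow_one, mul_one]
  have B10 : Eb e D b (1, 0) = b * (df e 2 * df e 0) * (-1) := by
    unfold Eb
    simp only [v0, v10, v1, pow_zero, pow_one, mul_one]
  have B11 : Eb e D b (1, 1) = b * D * df e 0 * (-1) := by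
    unfold Eb
    simp only [v11, v1, pow_zero, pow_one, one_mul]
  have T0 : tc (twi D e) 0 = (D * df e 1 * (D * df e 2), D * df e 2) := by
    unfold tc
    rw [if_pos rfl, df_twi, df_twi]
  have T1 : tc (twi D e) 1 = (-(D * df e 2), -(D * df e 0 * (D * df e 2))) := by
    unfold tc
    rw [if_neg (by decide), if_pos rfl, df_twi, df_twi]
  have T2 : tc (twi D e) 2 = (-(D * df e 1), -(D * df e 0)) := by
    unfold tc
    rw [if_neg (by decide), if_neg (by decide), df_twi, df_twi]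
  have lpi : ∀ {x x' : F}, Eqv 2 x x' → (Lpw 2 v x ↔ Lpw 2 v x') := fun h =>
    ⟨fun h1 => lpw_eqv hB (eqv_symm h) h1, fun h1 => lpw_eqv hB h h1⟩
  have c0 : (Lpw 2 v a ∧ Lpw 2 v b) ↔ (Lpw 2 v (Ea e D a (0, 0)) ∧ Lpw 2 v (Eb e D b (0, 0))) := by
    rw [A00, B00]
  have c1 : (Lpw 2 v (a * (tc (twi D e) 0).1) ∧ Lpw 2 v (b * (tc (twi D e) 0).2)) ↔
      (Lpw 2 v (Ea e D a (0, 1)) ∧ Lpw 2 v (Eb e D b (0, 1))) := by
    rw [A01, B01, T0]
    exact and_congr (lpi ⟨D, hD, by ring⟩) (lpi ⟨1, one_ne_zero, by ring⟩)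
  have c2 : (Lpw 2 v (a * (tc (twi D e) 1).1) ∧ Lpw 2 v (b * (tc (twi D e) 1).2)) ↔
      (Lpw 2 v (Ea e D a (1, 0)) ∧ Lpw 2 v (Eb e D b (1, 0))) := by
    rw [A10, B10, T1]
    exact and_congr (lpi ⟨1, one_ne_zero, by ring⟩) (lpi ⟨D, hD, by ring⟩)
  have c3 : (Lpw 2 v (a * (tc (twi D e) 2).1) ∧ Lpw 2 v (b * (tc (twi D e) 2).2)) ↔
      (Lpw 2 v (Ea e D a (1, 1)) ∧ Lpw 2 v (Eb e D b (1, 1))) := by
    rw [A11, B11, T2]
    exact and_congr (lpi ⟨1, one_ne_zero, by ring⟩) (lpi ⟨1, one_ne_zero, by ring⟩)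
  unfold TX
  constructor
  · rintro (h | ⟨l, h⟩)
    · exact ⟨(0, 0), c0.1 h⟩
    · rcases (by decide : ∀ l : Fin 3, l = 0 ∨ l = 1 ∨ l = 2) l with rfl | rfl | rfl
      · exact ⟨(0, 1), c1.1 h⟩
      · exact ⟨(1, 0), c2.1 h⟩
      · exact ⟨(1, 1), c3.1 h⟩
  · rintro ⟨⟨x, x'⟩, h⟩
    rcases z2 x with rfl | rfl <;> rcases z2 x' with rfl | rfl
    · exact Or.inl (c0.2 h)
    · exact Or.inr ⟨0, c1.2 h⟩
    · exact Or.inr ⟨1, c2.2 h⟩
    · exact Or.inr ⟨2, c3.2 h⟩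

theorem zneg : ∀ z : ZMod 2, -z = z := by decide

theorem dot_sub {f : ℕ} (φ x w : Fin f → ZMod 2) (s : ZMod 2) :
    dot φ (x - s • w) = dot φ x + s * dot φ w := by
  have h2 : ∀ x : ZMod 2, -x = x := by decide
  unfold dot
  rw [Finset.mul_sum, ← Finset.sum_add_distrib]
  refine Finset.sum_congr rfl fun l _ => ?_
  simp only [Pi.sub_apply, Pi.smul_apply, smul_eq_mul, sub_eq_add_neg, h2]
  ring

section

variable {ζ : F} {y f : ℕ} {t₀ : Fin f} {u r : Fin f → F} {π : HeightOneSpectrum (𝓞 F) → F} {k : ℕ}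

theorem zcanc : ∀ a b : ZMod 2, a = b + (a + b) := by decide

theorem nr_one (hB : S_BAS) (y : ℕ) : Nr y (1 : F) :=
  ⟨nn_one hB y, fun φ => by rw [map_one]; exact one_pos⟩

theorem nr_mul (hB : S_BAS) {y : ℕ} {a b : F} (ha : Nr y a) (hb : Nr y b) : Nr y (a * b) :=
  ⟨nn_mul hB ha.1 hb.1, fun φ => by rw [map_mul]; exact mul_pos (ha.2 φ) (hb.2 φ)⟩

theorem nr_pow (hB : S_BAS) {y : ℕ} {a : F} (ha : Nr y a) (n : ℕ) : Nr y (a ^ n) :=
  ⟨nn_pow hB ha.1 n, fun φ => by rw [map_pow]; exact pow_pos (ha.2 φ) n⟩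

theorem nr_prod (hB : S_BAS) {y : ℕ} {ι : Type} (s : Finset ι) (a : ι → F)
    (ha : ∀ i ∈ s, Nr y (a i)) : Nr y (∏ i ∈ s, a i) :=
  ⟨nn_prod hB s a fun i hi => (ha i hi).1, fun φ => by
    rw [map_prod]
    exact Finset.prod_pos fun i hi => (ha i hi).2 φ⟩

theorem nr_eqv (hB : S_BAS) {y : ℕ} {a b : F} (h : Eqv 2 a b) (hb : Nr y b) : Nr y a := by
  refine ⟨nn_eqv hB h hb.1, fun φ => ?_⟩
  obtain ⟨z, hz, rfl⟩ := h
  have h1 : φ z ≠ 0 := (map_ne_zero φ).2 hz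
  rw [map_mul, map_pow]
  exact mul_pos (hb.2 φ) (by positivity)

theorem nr_gen (hB : S_BAS) (B : Bs ζ y f u r π (gs t₀))
    (q : Fin k → HeightOneSpectrum (𝓞 F)) (hS : ∀ i, ¬ Sm y (q i)) (φ : Fin k → Fin f → ZMod 2)
    (hφ : ∀ j l, sy 2 ζ (q j) (u l) = φ j l) (Y : Fin k → ZMod 2) :
    Nr y ((∏ j, π (q j) ^ (Y j).val) * mon r (∑ j, Y j • φ j)) := by
  have h1 : Nr y (∏ j, (π (q j) * mon r (φ j)) ^ (Y j).val) := by
    refine nr_prod hB _ _ fun j _ => nr_pow hB ?_ _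
    have h2 := B.pc (q j) (hS j)
    have h3 : (fun l => sy 2 ζ (q j) (u l)) = φ j := funext fun l => hφ j l
    rwa [h3] at h2
  simp_rw [mul_pow] at h1
  rw [Finset.prod_mul_distrib] at h1
  exact nr_eqv hB (eqv_mul (eqv_refl _) (eqv_symm (eqv_mon_sum B.re φ Y))) h1

theorem vl_gen (hB : S_BAS) (B : Bs ζ y f u r π (gs t₀)) (q : Fin k → HeightOneSpectrum (𝓞 F))
    (hS : ∀ i, ¬ Sm y (q i)) (Y : Fin k → ZMod 2) {v : HeightOneSpectrum (𝓞 F)} (hv : ¬ Sm y v) :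
    vl 2 v (∏ j, π (q j) ^ (Y j).val) = ∑ j, @ite _ (q j = v) (Classical.dec _) (Y j) 0 := by
  classical
  have hπ : ∀ i, π (q i) ≠ 0 := fun i => (B.po (q i) (hS i)).1
  rw [vl_prod hB v _ _ fun j _ => pow_ne_zero _ (hπ j)]
  refine Finset.sum_congr rfl fun j _ => ?_
  rw [vl_pow hB v (hπ j), ZMod.natCast_zmod_val]
  by_cases h : v = q j
  · rw [((B.po (q j) (hS j)).2 v hv).1 h, if_pos h.symm, mul_one]
  · rw [((B.po (q j) (hS j)).2 v hv).2 h, if_neg fun h' => h h'.symm, mul_zero]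

theorem vl_rel (hB : S_BAS) (B : Bs ζ y f u r π (gs t₀)) (q : Fin k → HeightOneSpectrum (𝓞 F))
    (hS : ∀ i, ¬ Sm y (q i)) {a : F} (ha : a ≠ 0) {c : Fin f → ZMod 2} {Y : Fin k → ZMod 2}
    (h : Eqv 2 (a * mon u c) (∏ j, π (q j) ^ (Y j).val)) {v : HeightOneSpectrum (𝓞 F)}
    (hv : ¬ Sm y v) : vl 2 v a = ∑ j, @ite _ (q j = v) (Classical.dec _) (Y j) 0 := by
  have hπ : ∀ i, π (q i) ≠ 0 := fun i => (B.po (q i) (hS i)).1
  have h1 := vl_eqv hB v h (Finset.prod_ne_zero_iff.2 fun j _ => pow_ne_zero _ (hπ j))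
  rw [vl_gen hB B q hS Y hv, vl_mul hB v ha (mon_ne B.ue c),
    vl_mon hB v B.ue (fun l => B.uo l v hv) c, add_zero] at h1
  exact h1

/-- the symbol at `q j` of `a D ^ s` -/
theorem sy_formula (hB : S_BAS) (hζ : IsPrimitiveRoot ζ 2)
    (B : Bs ζ y f u r π (gs t₀)) {D0 : F} {w : Fin f → ZMod 2} (z : Fin k → ZMod 2)
    (q : Fin k → HeightOneSpectrum (𝓞 F)) (hz : ∀ i, z i ≠ 0)
    (hq : Function.Injective q) (hS : ∀ i, ¬ Sm y (q i)) (τ : Tab 2 f k) (hτ : Tb ζ u π τ q)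
    {D : F} (hfit : Fits 2 y D0 z q D)
    (hDw : IsPow 2 (D * mon u w / ∏ j, π (q j) ^ (z j).val)) {a : F} (ha : a ≠ 0) {c : Fin f → ZMod 2}
    {Y : Fin k → ZMod 2} (hc2 : Eqv 2 (a * mon u c) (∏ j, π (q j) ^ (Y j).val)) (j : Fin k)
    {s : ℕ} (hs' : (s : ZMod 2) = -(Y j * (z j)⁻¹)) :
    vl 2 (q j) (a * D ^ s) = 0 ∧ sy 2 ζ (q j) (a * D ^ s) =
      ∑ i, (Y i - Y j * (z j)⁻¹ * z i) * Mt (gs t₀) τ i j - dot (τ.1 j) (c - (Y j * (z j)⁻¹) • w) := by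
  classical
  have hp0 : (2 : ℕ) ≠ 0 := two_ne_zero
  have hπ : ∀ i, π (q i) ≠ 0 := fun i => (B.po (q i) (hS i)).1
  have hdp : ∀ v : HeightOneSpectrum (𝓞 F), ¬ Sm y v → ¬ Dp 2 v := fun v hv h => hv (sm_of_dp B.two h)
  have hvπ : ∀ i v, ¬ Sm y v → vl 2 v (π (q i)) = if q i = v then 1 else 0 := by
    intro i v hv
    by_cases h : v = q i
    · rw [((B.po (q i) (hS i)).2 v hv).1 h, if_pos h.symm]
    · rw [((B.po (q i) (hS i)).2 v hv).2 h, if_neg fun h' => h h'.symm]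
  have hmc : mon u c ≠ 0 := mon_ne B.ue c
  have hmw : mon u w ≠ 0 := mon_ne B.ue w
  have hdj := hdp _ (hS j)
  set P : F := ∏ j, π (q j) ^ (Y j).val with hP
  set Q : F := ∏ j, π (q j) ^ (z j).val with hQ
  have hQ0 : Q ≠ 0 := Finset.prod_ne_zero_iff.2 fun j _ => pow_ne_zero _ (hπ j)
  have hD1 : Eqv 2 (D * mon u w) Q := by
    have h1 := eqv_one_of (div_ne_zero (mul_ne_zero hfit.ne hmw) hQ0) hDw hp0
    have h2 := eqv_mul h1 (eqv_refl (p := 2) Q)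
    rwa [one_mul, div_mul_cancel₀ _ hQ0] at h2
  -- all together
  have h1 : Eqv 2 (a * D ^ s * (mon u c * mon u w ^ s)) (∏ i, π (q i) ^ ((Y i).val + s * (z i).val)) := by
    have h2 := eqv_mul hc2 (eqv_pow hD1 s)
    have h3 : a * mon u c * (D * mon u w) ^ s = a * D ^ s * (mon u c * mon u w ^ s) := by
      rw [mul_pow]; ring
    have h4 : P * Q ^ s = ∏ i, π (q i) ^ ((Y i).val + s * (z i).val) := by
      rw [hP, hQ, ← Finset.prod_pow, ← Finset.prod_mul_distrib]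
      refine Finset.prod_congr rfl fun i _ => ?_
      rw [pow_add, mul_comm s, pow_mul]
    rwa [h3, h4] at h2
  have h2 : ∏ i, π (q i) ^ ((Y i).val + s * (z i).val) =
      (∏ i ∈ univ.erase j, π (q i) ^ ((Y i).val + s * (z i).val)) * π (q j) ^ ((Y j).val + s * (z j).val) :=
    (Finset.prod_erase_mul _ _ (Finset.mem_univ j)).symm
  have hzj := hz j
  have h3 : 2 ∣ (Y j).val + s * (z j).val := by
    rw [← ZMod.natCast_eq_zero_iff, Nat.cast_add, Nat.cast_mul, ZMod.natCast_zmod_val,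
      ZMod.natCast_zmod_val, hs', neg_mul, mul_assoc, inv_mul_cancel₀ hzj, mul_one, add_neg_cancel]
  obtain ⟨m, hm⟩ := h3
  set R : F := ∏ i ∈ univ.erase j, π (q i) ^ ((Y i).val + s * (z i).val) with hR
  have hR0 : R ≠ 0 := Finset.prod_ne_zero_iff.2 fun i _ => pow_ne_zero _ (hπ i)
  have h4 : Eqv 2 (a * D ^ s * (mon u c * mon u w ^ s)) R := by
    refine eqv_trans h1 ?_
    rw [h2, hm, mul_comm 2 m, pow_mul]
    exact eqv_one_mul (eqv_pow_p (pow_ne_zero _ (hπ j)))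
  have hoi : ∀ i ∈ univ.erase j, vl 2 (q j) (π (q i)) = 0 := by
    intro i hi
    rw [hvπ i _ (hS j), if_neg fun h => (Finset.mem_erase.1 hi).1 (hq h)]
  have hvR : vl 2 (q j) R = 0 := by
    rw [hR, vl_prod hB _ _ _ fun i _ => pow_ne_zero _ (hπ i)]
    refine Finset.sum_eq_zero fun i hi => ?_
    rw [vl_pow hB _ (hπ i), hoi i hi, mul_zero]
  have hou : ∀ l, vl 2 (q j) (u l) = 0 := fun l => B.uo l _ (hS j)
  have hvc : vl 2 (q j) (mon u c) = 0 := vl_mon hB _ B.ue hou c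
  have hvw : vl 2 (q j) (mon u w) = 0 := vl_mon hB _ B.ue hou w
  have hvws : vl 2 (q j) (mon u w ^ s) = 0 := by rw [vl_pow hB _ hmw, hvw, mul_zero]
  have hvcw : vl 2 (q j) (mon u c * mon u w ^ s) = 0 := by
    rw [vl_mul hB _ hmc (pow_ne_zero _ hmw), hvc, hvws, add_zero]
  have haD : a * D ^ s ≠ 0 := mul_ne_zero ha (pow_ne_zero _ hfit.ne)
  have hvaD : vl 2 (q j) (a * D ^ s) = 0 := by
    have h5 := vl_eqv hB (q j) h4 hR0
    rw [vl_mul hB _ haD (mul_ne_zero hmc (pow_ne_zero _ hmw)), hvcw, add_zero, hvR] at h5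
    exact h5
  refine ⟨hvaD, ?_⟩
  have h5 := sy_eqv hB hζ hdj h4 hR0 hvR
  rw [sy_mul hB hζ hdj haD (mul_ne_zero hmc (pow_ne_zero _ hmw)) hvaD hvcw,
    sy_mul hB hζ hdj hmc (pow_ne_zero _ hmw) hvc hvws,
    sy_pow hB hζ hdj hmw hvw, sy_mon hB hζ hdj B.ue hou, sy_mon hB hζ hdj B.ue hou, hR,
    sy_prod hB hζ hdj _ _ (fun i _ => pow_ne_zero _ (hπ i))
      (fun i hi => by rw [vl_pow hB _ (hπ i), hoi i hi, mul_zero])] at h5
  have h6 : (fun l => sy 2 ζ (q j) (u l)) = τ.1 j := funext fun l => hτ.1 j l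
  rw [h6] at h5
  have h7 : ∀ i ∈ univ.erase j, sy 2 ζ (q j) (π (q i) ^ ((Y i).val + s * (z i).val)) =
      (Y i - Y j * (z j)⁻¹ * z i) * Mt (gs t₀) τ i j := by
    intro i hi
    have hij : i ≠ j := (Finset.mem_erase.1 hi).1
    rw [sy_pow hB hζ hdj (hπ i) (hoi i hi), Nat.cast_add, Nat.cast_mul, ZMod.natCast_zmod_val,
      ZMod.natCast_zmod_val, hs']
    have h8 : sy 2 ζ (q j) (π (q i)) = Mt (gs t₀) τ i j := by
      unfold Mt
      rcases lt_trichotomy i j with h9 | h9 | h9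
      · rw [dif_pos h9]
        exact hτ.2 ⟨(i, j), h9⟩
      · exact absurd h9 hij
      · rw [dif_neg (not_lt.mpr h9.le), dif_pos h9]
        have h10 := B.rcp (q i) (q j) (hS i) (hS j) fun h => hij (hq h)
        have h11 := hτ.2 ⟨(j, i), h9⟩
        simp only at h11
        have h12 : (fun l => sy 2 ζ (q i) (u l)) = τ.1 i := funext fun l => hτ.1 i l
        rw [h6, h12, h11] at h10
        rw [← h10]
        exact zcanc _ _
    rw [h8]
    ring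
  rw [Finset.sum_congr rfl h7] at h5
  rw [← Finset.sum_erase_add _ _ (Finset.mem_univ j), ← h5, hs']
  have h8 : Y j - Y j * (z j)⁻¹ * z j = 0 := by
    rw [mul_assoc, inv_mul_cancel₀ (hz j), mul_one, sub_self]
  rw [h8, zero_mul, add_zero]
  have h9 : dot (τ.1 j) (c - (Y j * (z j)⁻¹) • w) = dot (τ.1 j) c + -(Y j * (z j)⁻¹) * dot (τ.1 j) w := by
    simp only [dot, Pi.sub_apply, Pi.smul_apply, smul_eq_mul, mul_sub, Finset.sum_sub_distrib]
    rw [neg_mul, ← sub_eq_add_neg, Finset.mul_sum]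
    congr 1
    exact Finset.sum_congr rfl fun l _ => by ring
  rw [h9]
  ring

theorem rl_uniq (hB : S_BAS) (B : Bs ζ y f u r π (gs t₀)) (q : Fin k → HeightOneSpectrum (𝓞 F))
    (hq : Function.Injective q) (hS : ∀ i, ¬ Sm y (q i)) {a a' : F} (ha : a ≠ 0) (ha' : a' ≠ 0)
    (haa : Eqv 2 a a') {x x' : (Fin f → ZMod 2) × (Fin k → ZMod 2)} (h : Rl π u q a x)
    (h' : Rl π u q a' x') : x = x' := by
  have hp0 : (2 : ℕ) ≠ 0 := two_ne_zero
  have hY : x.2 = x'.2 := by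
    funext j
    have h1 := vl_rel hB B q hS ha h (hS j)
    have h2 := vl_rel hB B q hS ha' h' (hS j)
    rw [sum_ite_q hq] at h1 h2
    rw [← h1, ← h2]
    exact vl_eqv hB (q j) haa ha'
  have hm : mon u x.1 ≠ 0 := mon_ne B.ue _
  have hm' : mon u x'.1 ≠ 0 := mon_ne B.ue _
  have h1 : Eqv 2 (mon u x.1) (mon u x'.1) := by
    have h2 : Eqv 2 (a * mon u x.1) (a' * mon u x'.1) := by
      unfold Rl at h h'
      rw [hY] at h
      exact eqv_trans h (eqv_symm h')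
    have h3 := eqv_mul (eqv_inv haa) h2
    rwa [← mul_assoc, inv_mul_cancel₀ ha, one_mul, ← mul_assoc, inv_mul_cancel₀ ha', one_mul] at h3
  have h2 : Eqv 2 (mon u (x.1 - x'.1)) 1 := by
    have h3 : Eqv 2 (mon u (x.1 - x'.1) * mon u x'.1) (mon u x.1) := by
      have h4 : mon u (x.1 - x'.1) * mon u x'.1 =
          ∏ l, u l ^ (((x.1 - x'.1) l).val + (x'.1 l).val) := by
        unfold mon
        rw [← Finset.prod_mul_distrib]
        exact Finset.prod_congr rfl fun l _ => (pow_add _ _ _).symm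
      rw [h4]
      refine eqv_mon B.ue _ _ fun l => ?_
      rw [Nat.cast_add, ZMod.natCast_zmod_val, ZMod.natCast_zmod_val, Pi.sub_apply, sub_add_cancel]
    have h5 := eqv_mul (eqv_trans h3 h1) (eqv_refl (p := 2) (mon u x'.1)⁻¹)
    rwa [mul_inv_cancel_right₀ hm', mul_inv_cancel₀ hm'] at h5
  have h3 := B.ind _ (isPow_of h2)
  exact Prod.ext (sub_eq_zero.1 h3) hY

theorem rl_eqv (B : Bs ζ y f u r π (gs t₀)) {q : Fin k → HeightOneSpectrum (𝓞 F)}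
    {a a' : F} {x : (Fin f → ZMod 2) × (Fin k → ZMod 2)} (h : Rl π u q a x)
    (h' : Rl π u q a' x) : Eqv 2 a a' := by
  have hm : mon u x.1 ≠ 0 := mon_ne B.ue _
  have h1 := eqv_mul (eqv_trans h (eqv_symm h')) (eqv_refl (p := 2) (mon u x.1)⁻¹)
  rwa [mul_inv_cancel_right₀ hm, mul_inv_cancel_right₀ hm] at h1

theorem el_ne (B : Bs ζ y f u r π (gs t₀)) {q : Fin k → HeightOneSpectrum (𝓞 F)}
    (hS : ∀ i, ¬ Sm y (q i)) (x : (Fin f → ZMod 2) × (Fin k → ZMod 2)) : el π u q x ≠ 0 :=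
  mul_ne_zero (Finset.prod_ne_zero_iff.2 fun j _ => pow_ne_zero _ (B.po (q j) (hS j)).1)
    (inv_ne_zero (mon_ne B.ue _))

theorem el_rl (B : Bs ζ y f u r π (gs t₀)) (q : Fin k → HeightOneSpectrum (𝓞 F))
    (x : (Fin f → ZMod 2) × (Fin k → ZMod 2)) : Rl π u q (el π u q x) x := by
  unfold Rl el
  rw [inv_mul_cancel_right₀ (mon_ne B.ue _)]
  exact eqv_refl _

theorem nr_rl (hB : S_BAS) (B : Bs ζ y f u r π (gs t₀)) {q : Fin k → HeightOneSpectrum (𝓞 F)}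
    (hS : ∀ i, ¬ Sm y (q i)) {τ : Tab 2 f k} (hτ : Tb ζ u π τ q) {a : F}
    {x : (Fin f → ZMod 2) × (Fin k → ZMod 2)} (h : Rl π u q a x) :
    Nr y (a * mon r (∑ j, x.2 j • τ.1 j) * mon u x.1) := by
  have h1 := nr_gen hB B q hS τ.1 hτ.1 x.2
  have h2 : Eqv 2 (a * mon r (∑ j, x.2 j • τ.1 j) * mon u x.1)
      ((∏ j, π (q j) ^ (x.2 j).val) * mon r (∑ j, x.2 j • τ.1 j)) := by
    have h3 := eqv_mul h (eqv_refl (p := 2) (mon r (∑ j, x.2 j • τ.1 j)))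
    have h4 : a * mon u x.1 * mon r (∑ j, x.2 j • τ.1 j) =
        a * mon r (∑ j, x.2 j • τ.1 j) * mon u x.1 := by ring
    rwa [h4] at h3
  exact nr_eqv hB h2 h1

theorem row_fst (c : Fin 3 → Fin f → ZMod 2) (w : Fin f → ZMod 2)
    (𝓛 : Submodule (ZMod 2) ((Fin f → U2) × (Fin f → U2))) (τ : Tab 2 f k)
    (X : (Fin f → U2) × (Fin k → U2)) (j : Fin k) :
    (rowL (djS t₀ c w 𝓛) (NG t₀ τ) τ.1 X j).1 =
      ∑ i, Mt (gs t₀) τ i j * ((X.2 i).1 + (X.2 j).1) +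
      (dot (τ.1 j) (c 2) * ((X.2 j).1 + (X.2 j).2) + dot (τ.1 j) (c 1) * (X.2 j).2 +
        dot (τ.1 j) w * (X.2 j).1 + τ.1 j t₀ * (X.2 j).1) + dot (τ.1 j) (cX X).1 := by
  show (∑ i, NG t₀ τ j i • (X.2 i + X.2 j) + opS t₀ c w (τ.1 j) (X.2 j) + ∑ t, τ.1 j t • X.1 t).1 = _
  rw [Prod.fst_add, Prod.fst_add, Prod.fst_sum, Prod.fst_sum]
  rfl

theorem row_snd (c : Fin 3 → Fin f → ZMod 2) (w : Fin f → ZMod 2)
    (𝓛 : Submodule (ZMod 2) ((Fin f → U2) × (Fin f → U2))) (τ : Tab 2 f k)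
    (X : (Fin f → U2) × (Fin k → U2)) (j : Fin k) :
    (rowL (djS t₀ c w 𝓛) (NG t₀ τ) τ.1 X j).2 =
      ∑ i, Mt (gs t₀) τ i j * ((X.2 i).2 + (X.2 j).2) +
      (dot (τ.1 j) (c 2) * ((X.2 j).1 + (X.2 j).2) + dot (τ.1 j) (c 0) * (X.2 j).1 +
        dot (τ.1 j) w * (X.2 j).2 + τ.1 j t₀ * (X.2 j).1) + dot (τ.1 j) (cY X).1 := by
  show (∑ i, NG t₀ τ j i • (X.2 i + X.2 j) + opS t₀ c w (τ.1 j) (X.2 j) + ∑ t, τ.1 j t • X.1 t).2 = _
  rw [Prod.snd_add, Prod.snd_add, Prod.snd_sum, Prod.snd_sum]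
  rfl

/-- the symbol of a test element -/
theorem sy_test (hB : S_BAS) (hSH1 : S_SH1) (hζ : IsPrimitiveRoot ζ 2)
    (B : Bs ζ y f u r π (gs t₀)) (hu0 : u t₀ = -1) {e : Fin 3 → F} {c : Fin 3 → Fin f → ZMod 2} (hR : Rt e)
    (hc : Dcl u e c) {D0 : F} {ψ w : Fin f → ZMod 2} (hD0 : D0 ≠ 0)
    (hw : Nr y (D0 * mon r ψ * mon u w)) {q : Fin k → HeightOneSpectrum (𝓞 F)}
    (hq : Function.Injective q) (hS : ∀ i, ¬ Sm y (q i)) {τ : Tab 2 f k} (hτ : Tb ζ u π τ q) {D : F}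
    (hfit : FR y D0 q D) {a : F} (ha : a ≠ 0)
    {x : (Fin f → ZMod 2) × (Fin k → ZMod 2)} (h : Rl π u q a x) (j : Fin k) (l l' : Fin 3)
    (s s' s'' : ZMod 2) :
    vl 2 (q j) (a * D ^ (x.2 j).val * (df e l ^ s.val * df e l' ^ s'.val) * (-1) ^ s''.val) = 0 ∧
    sy 2 ζ (q j) (a * D ^ (x.2 j).val * (df e l ^ s.val * df e l' ^ s'.val) * (-1) ^ s''.val) =
      ∑ i, Mt (gs t₀) τ i j * (x.2 i + x.2 j) +
        (dot (τ.1 j) (c l) * s + dot (τ.1 j) (c l') * s' + dot (τ.1 j) w * x.2 j + τ.1 j t₀ * s'') +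
        dot (τ.1 j) x.1 := by
  have : Fact (Nat.Prime 2) := ⟨Nat.prime_two⟩
  have hneg : ∀ z : ZMod 2, -z = z := fun z => zneg z
  have hdp : ¬ Dp 2 (q j) := fun h => hS j (sm_of_dp B.two h)
  have hs0 : (((x.2 j).val : ℕ) : ZMod 2) = -(x.2 j * ((fun _ : Fin k => (1 : ZMod 2)) j)⁻¹) := by
    rw [ZMod.natCast_zmod_val, inv_one, mul_one, hneg]
  have hDw : IsPow 2 (D * mon u w / ∏ j, π (q j) ^ ((fun _ : Fin k => (1 : ZMod 2)) j).val) := by
    have h1 := (hSH1 F ζ hζ y f u r π (gs t₀) B D0 ψ w hD0 hw k q hq hS τ hτ).2 D hfit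
    have h2 : ∏ j, π (q j) ^ ((fun _ : Fin k => (1 : ZMod 2)) j).val = ∏ j, π (q j) :=
      Finset.prod_congr rfl fun j _ => by
        show π (q j) ^ (1 : ZMod 2).val = _
        rw [show (1 : ZMod 2).val = 1 from rfl, pow_one]
    rwa [h2]
  obtain ⟨h1, h2⟩ := sy_formula hB hζ B (w := w) (fun _ => 1) q (fun _ => one_ne_zero) hq hS τ hτ
    hfit.1 hDw ha h j hs0
  have hd0 : ∀ l, df e l ≠ 0 := by
    intro l
    unfold df
    split_ifs
    · exact sub_ne_zero.2 fun h => absurd (hR.inj h) (by decide)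
    · exact sub_ne_zero.2 fun h => absurd (hR.inj h) (by decide)
    · exact sub_ne_zero.2 fun h => absurd (hR.inj h) (by decide)
  have hou : ∀ l, vl 2 (q j) (u l) = 0 := fun l => B.uo l _ (hS j)
  have hvm : ∀ l, vl 2 (q j) (mon u (c l)) = 0 := fun l => vl_mon hB _ B.ue hou (c l)
  have hE : ∀ l, Eqv 2 (df e l * mon u (c l)) 1 := fun l =>
    eqv_one_of (mul_ne_zero (hd0 l) (mon_ne B.ue _)) (hc l) two_ne_zero
  have hvd : ∀ l, vl 2 (q j) (df e l) = 0 := by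
    intro l
    have h3 := vl_eqv hB (q j) (hE l) one_ne_zero
    rw [vl_mul hB _ (hd0 l) (mon_ne B.ue _), hvm, add_zero, vl_one hB] at h3
    exact h3
  have hsd : ∀ l, sy 2 ζ (q j) (df e l) = dot (τ.1 j) (c l) := by
    intro l
    have h3 := sy_eqv hB hζ hdp (hE l) one_ne_zero (vl_one hB _)
    rw [sy_mul hB hζ hdp (hd0 l) (mon_ne B.ue _) (hvd l) (hvm l), sy_mon hB hζ hdp B.ue hou,
      sy_lpw hB hζ hdp (lpw_one hB _)] at h3
    have h6 : (fun l => sy 2 ζ (q j) (u l)) = τ.1 j := funext fun l => hτ.1 j l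
    rw [h6] at h3
    have h7 := eq_neg_of_add_eq_zero_left h3
    rw [h7, hneg]
  have hm0 : (-1 : F) ≠ 0 := neg_ne_zero.2 one_ne_zero
  have hmv : vl 2 (q j) (-1 : F) = 0 := by rw [← hu0]; exact hou t₀
  have hms : sy 2 ζ (q j) (-1 : F) = τ.1 j t₀ := by rw [← hu0]; exact hτ.1 j t₀
  have haD : a * D ^ (x.2 j).val ≠ 0 := mul_ne_zero ha (pow_ne_zero _ hfit.1.ne)
  have hp1 : df e l ^ s.val ≠ 0 := pow_ne_zero _ (hd0 l)
  have hp2 : df e l' ^ s'.val ≠ 0 := pow_ne_zero _ (hd0 l')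
  have hp3 : (-1 : F) ^ s''.val ≠ 0 := pow_ne_zero _ hm0
  have hv1 : vl 2 (q j) (df e l ^ s.val) = 0 := by rw [vl_pow hB _ (hd0 l), hvd, mul_zero]
  have hv2 : vl 2 (q j) (df e l' ^ s'.val) = 0 := by rw [vl_pow hB _ (hd0 l'), hvd, mul_zero]
  have hv3 : vl 2 (q j) (df e l ^ s.val * df e l' ^ s'.val) = 0 := by
    rw [vl_mul hB _ hp1 hp2, hv1, hv2, add_zero]
  have hv4 : vl 2 (q j) ((-1 : F) ^ s''.val) = 0 := by rw [vl_pow hB _ hm0, hmv, mul_zero]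
  have hp5 : a * D ^ (x.2 j).val * (df e l ^ s.val * df e l' ^ s'.val) ≠ 0 :=
    mul_ne_zero haD (mul_ne_zero hp1 hp2)
  have hv5 : vl 2 (q j) (a * D ^ (x.2 j).val * (df e l ^ s.val * df e l' ^ s'.val)) = 0 := by
    rw [vl_mul hB _ haD (mul_ne_zero hp1 hp2), h1, hv3, add_zero]
  refine ⟨?_, ?_⟩
  · rw [vl_mul hB _ hp5 hp3, hv5, hv4, add_zero]
  · rw [sy_mul hB hζ hdp hp5 hp3 hv5 hv4, sy_mul hB hζ hdp haD (mul_ne_zero hp1 hp2) h1 hv3,
      sy_mul hB hζ hdp hp1 hp2 hv1 hv2, h2,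
      sy_pow hB hζ hdp (hd0 l) (hvd l), sy_pow hB hζ hdp (hd0 l') (hvd l'), hsd, hsd,
      sy_pow hB hζ hdp hm0 hmv, hms,
      ZMod.natCast_zmod_val, ZMod.natCast_zmod_val, ZMod.natCast_zmod_val, dot_sub]
    simp only [inv_one, mul_one, sub_eq_add_neg, hneg]
    have h8 : ∑ i, (x.2 i + x.2 j) * Mt (gs t₀) τ i j =
        ∑ i, Mt (gs t₀) τ i j * (x.2 i + x.2 j) :=
      Finset.sum_congr rfl fun i _ => mul_comm _ _
    rw [h8]
    ring

/-- the condition at the large primes is the row -/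
theorem ram_iff (hB : S_BAS) (hSH1 : S_SH1) (hζ : IsPrimitiveRoot ζ 2)
    (B : Bs ζ y f u r π (gs t₀)) (hu0 : u t₀ = -1) {e : Fin 3 → F} {c : Fin 3 → Fin f → ZMod 2} (hR : Rt e)
    (hc : Dcl u e c) {D0 : F} {ψ w : Fin f → ZMod 2} (hD0 : D0 ≠ 0)
    (hw : Nr y (D0 * mon r ψ * mon u w)) {q : Fin k → HeightOneSpectrum (𝓞 F)}
    (hq : Function.Injective q) (hS : ∀ i, ¬ Sm y (q i)) {τ : Tab 2 f k} (hτ : Tb ζ u π τ q) {D : F}
    (hfit : FR y D0 q D) {a b : F} (ha : a ≠ 0) (hb : b ≠ 0)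
    {X : (Fin f → U2) × (Fin k → U2)} (h : Rl π u q a (cX X)) (h' : Rl π u q b (cY X))
    (𝓛 : Submodule (ZMod 2) ((Fin f → U2) × (Fin f → U2))) (j : Fin k) :
    TX (q j) (twi D e) a b ↔ rowL (djS t₀ c w 𝓛) (NG t₀ τ) τ.1 X j = 0 := by
  have : Fact (Nat.Prime 2) := ⟨Nat.prime_two⟩
  have hneg : ∀ z : ZMod 2, -z = z := fun z => zneg z
  have hdp : ¬ Dp 2 (q j) := fun h => hS j (sm_of_dp B.two h)
  obtain ⟨va, sa⟩ := sy_test hB hSH1 hζ B hu0 hR hc hD0 hw hq hS hτ hfit ha h j 2 1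
    ((X.2 j).1 + (X.2 j).2) (X.2 j).2 (X.2 j).1
  obtain ⟨vb, sb⟩ := sy_test hB hSH1 hζ B hu0 hR hc hD0 hw hq hS hτ hfit hb h' j 2 0
    ((X.2 j).1 + (X.2 j).2) (X.2 j).1 (X.2 j).1
  have hsa : sy 2 ζ (q j) (Ea e D a (X.2 j)) = (rowL (djS t₀ c w 𝓛) (NG t₀ τ) τ.1 X j).1 := by
    rw [row_fst]
    exact sa
  have hsb : sy 2 ζ (q j) (Eb e D b (X.2 j)) = (rowL (djS t₀ c w 𝓛) (NG t₀ τ) τ.1 X j).2 := by
    rw [row_snd]
    exact sb
  have hva : vl 2 (q j) (Ea e D a (X.2 j)) = 0 := va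
  have hvb : vl 2 (q j) (Eb e D b (X.2 j)) = 0 := vb
  have hd0 : ∀ l, df e l ≠ 0 := by
    intro l
    unfold df
    split_ifs
    · exact sub_ne_zero.2 fun h => absurd (hR.inj h) (by decide)
    · exact sub_ne_zero.2 fun h => absurd (hR.inj h) (by decide)
    · exact sub_ne_zero.2 fun h => absurd (hR.inj h) (by decide)
  have hm0 : (-1 : F) ≠ 0 := neg_ne_zero.2 one_ne_zero
  have hEa0 : ∀ x, Ea e D a x ≠ 0 := fun x => mul_ne_zero (mul_ne_zero (mul_ne_zero ha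
    (pow_ne_zero _ hfit.1.ne)) (mul_ne_zero (pow_ne_zero _ (hd0 _)) (pow_ne_zero _ (hd0 _)))) (pow_ne_zero _ hm0)
  have hEb0 : ∀ x, Eb e D b x ≠ 0 := fun x => mul_ne_zero (mul_ne_zero (mul_ne_zero hb
    (pow_ne_zero _ hfit.1.ne)) (mul_ne_zero (pow_ne_zero _ (hd0 _)) (pow_ne_zero _ (hd0 _)))) (pow_ne_zero _ hm0)
  have hkey : ∀ E : F, E ≠ 0 → vl 2 (q j) E = 0 → (sy 2 ζ (q j) E = 0 ↔ Lpw 2 (q j) E) :=
    fun E h1 h2 => ((hB 2 F (q j)).2.2.2.2.2.2 hdp ζ hζ).2.2.2 E h1 h2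
  rw [tx_iff hB hfit.1.ne]
  have hrow : rowL (djS t₀ c w 𝓛) (NG t₀ τ) τ.1 X j = 0 ↔
      Lpw 2 (q j) (Ea e D a (X.2 j)) ∧ Lpw 2 (q j) (Eb e D b (X.2 j)) := by
    rw [← hkey _ (hEa0 _) hva, ← hkey _ (hEb0 _) hvb, hsa, hsb]
    constructor
    · intro h1
      rw [h1]
      exact ⟨rfl, rfl⟩
    · rintro ⟨h1, h2⟩
      exact Prod.ext h1 h2
  rw [hrow]
  constructor
  · rintro ⟨x, h1, h2⟩
    have hvD : vl 2 (q j) D = 1 := by
      rw [vl_D hfit.1 (hS j)]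
      exact sum_ite_q hq (fun _ => (1 : ZMod 2)) j
    have hou : ∀ l, vl 2 (q j) (u l) = 0 := fun l => B.uo l _ (hS j)
    have hvd : ∀ l, vl 2 (q j) (df e l) = 0 := by
      intro l
      have h3 := vl_eqv hB (q j) (eqv_one_of (mul_ne_zero (hd0 l) (mon_ne B.ue _)) (hc l) two_ne_zero)
        one_ne_zero
      rw [vl_mul hB _ (hd0 l) (mon_ne B.ue _), vl_mon hB _ B.ue hou (c l), add_zero, vl_one hB] at h3
      exact h3
    have hmv : vl 2 (q j) (-1 : F) = 0 := by rw [← hu0]; exact hou t₀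
    have hgen : ∀ (a : F) (l l' : Fin 3) (m n n' n'' : ℕ), a ≠ 0 →
        vl 2 (q j) (a * D ^ m * (df e l ^ n * df e l' ^ n') * (-1) ^ n'') = vl 2 (q j) a + m := by
      intro a l l' m n n' n'' ha
      have p1 : df e l ^ n ≠ 0 := pow_ne_zero _ (hd0 l)
      have p2 : df e l' ^ n' ≠ 0 := pow_ne_zero _ (hd0 l')
      rw [vl_mul hB _ (mul_ne_zero (mul_ne_zero ha (pow_ne_zero _ hfit.1.ne)) (mul_ne_zero p1 p2))
          (pow_ne_zero _ hm0), vl_pow hB _ hm0, hmv, mul_zero, add_zero,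
        vl_mul hB _ (mul_ne_zero ha (pow_ne_zero _ hfit.1.ne)) (mul_ne_zero p1 p2),
        vl_mul hB _ ha (pow_ne_zero _ hfit.1.ne), vl_mul hB _ p1 p2, vl_pow hB _ (hd0 l),
        vl_pow hB _ (hd0 l'), vl_pow hB _ hfit.1.ne, hvd, hvd, hvD, mul_zero, mul_zero, mul_one,
        add_zero, add_zero]
    have e1 : vl 2 (q j) a = (X.2 j).1 := by
      rw [vl_rel hB B q hS ha h (hS j)]
      exact sum_ite_q hq _ j
    have e2 : vl 2 (q j) b = (X.2 j).2 := by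
      rw [vl_rel hB B q hS hb h' (hS j)]
      exact sum_ite_q hq _ j
    have g1 := lpw_vl hB h1
    have g2 := lpw_vl hB h2
    unfold Ea at g1
    unfold Eb at g2
    rw [hgen _ _ _ _ _ _ _ ha, e1, ZMod.natCast_zmod_val] at g1
    rw [hgen _ _ _ _ _ _ _ hb, e2, ZMod.natCast_zmod_val] at g2
    have k1 : x.1 = (X.2 j).1 := by
      rw [eq_neg_of_add_eq_zero_left g1, hneg]
    have k2 : x.2 = (X.2 j).2 := by
      rw [eq_neg_of_add_eq_zero_left g2, hneg]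
    have k3 : x = X.2 j := Prod.ext k1 k2
    rw [← k3]
    exact ⟨h1, h2⟩
  · intro h1
    exact ⟨_, h1⟩

/-- the coordinates of an element -/
theorem coord (hB : S_BAS) (B : Bs ζ y f u r π (gs t₀))
    {q : Fin k → HeightOneSpectrum (𝓞 F)} (hq : Function.Injective q) (hS : ∀ i, ¬ Sm y (q i))
    {a : F} (ha : a ≠ 0)
    (h0 : ∀ v : HeightOneSpectrum (𝓞 F), ¬ Sm y v → (∀ i, q i ≠ v) → vl 2 v a = 0) :
    ∃ c : Fin f → ZMod 2, Rl π u q a (c, fun j => vl 2 (q j) a) := by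
  classical
  have : Fact (Nat.Prime 2) := ⟨Nat.prime_two⟩
  have hπ : ∀ i, π (q i) ≠ 0 := fun i => (B.po (q i) (hS i)).1
  set Y : Fin k → ZMod 2 := fun j => vl 2 (q j) a with hY
  set P : F := ∏ j, π (q j) ^ (Y j).val with hP
  have hP0 : P ≠ 0 := Finset.prod_ne_zero_iff.2 fun j _ => pow_ne_zero _ (hπ j)
  have hev : ∀ v, ¬ Sm y v → vl 2 v (a * P⁻¹) = 0 := by
    intro v hv
    rw [vl_mul hB v ha (inv_ne_zero hP0), vl_inv hB v hP0, hP, vl_gen hB B q hS Y hv]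
    by_cases h : ∃ i, q i = v
    · obtain ⟨i, rfl⟩ := h
      rw [sum_ite_q hq, add_neg_cancel]
    · push Not at h
      rw [h0 v hv h, sum_ite_none h, neg_zero, add_zero]
  obtain ⟨c, hc⟩ := B.full _ (mul_ne_zero ha (inv_ne_zero hP0)) hev
  have hmc : mon u c ≠ 0 := mon_ne B.ue c
  have hc1 : Eqv 2 (a * P⁻¹ * mon u c) 1 :=
    eqv_one_of (mul_ne_zero (mul_ne_zero ha (inv_ne_zero hP0)) hmc) hc two_ne_zero
  refine ⟨c, ?_⟩
  show Eqv 2 (a * mon u c) P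
  have h1 := eqv_mul hc1 (eqv_refl (p := 2) P)
  rw [one_mul] at h1
  have h2 : a * P⁻¹ * mon u c * P = a * mon u c := by field_simp
  rwa [h2] at h1

/-- the class of a vector -/
theorem cl_eq (τ : Tab 2 f k) (X : (Fin f → U2) × (Fin k → U2)) : clL τ.1 X =
    ((fun t => (((∑ j, (cX X).2 j • τ.1 j, (cX X).1) : (Fin f → ZMod 2) × (Fin f → ZMod 2)).2 t,
      ((∑ j, (cY X).2 j • τ.1 j, (cY X).1) : (Fin f → ZMod 2) × (Fin f → ZMod 2)).2 t)),
    fun t => (((∑ j, (cX X).2 j • τ.1 j, (cX X).1) : (Fin f → ZMod 2) × (Fin f → ZMod 2)).1 t,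
      ((∑ j, (cY X).2 j • τ.1 j, (cY X).1) : (Fin f → ZMod 2) × (Fin f → ZMod 2)).1 t)) := by
  refine Prod.ext rfl ?_
  funext t
  show ∑ p, τ.1 p t • X.2 p = ((∑ j, (cX X).2 j • τ.1 j) t, (∑ j, (cY X).2 j • τ.1 j) t)
  refine Prod.ext ?_ ?_
  · rw [Prod.fst_sum]
    show _ = (∑ j, (cX X).2 j • τ.1 j) t
    rw [Finset.sum_apply]
    exact Finset.sum_congr rfl fun j _ => mul_comm (τ.1 j t) (X.2 j).1
  · rw [Prod.snd_sum]
    show _ = (∑ j, (cY X).2 j • τ.1 j) t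
    rw [Finset.sum_apply]
    exact Finset.sum_congr rfl fun j _ => mul_comm (τ.1 j t) (X.2 j).2

end

end Pool.Agent.Q277.FG.SXX

namespace Pool.Agent.Q277.FG

open NumberField IsDedekindDomain Finset
open Pool.Agent.Q7.LK hiding S_SH1
open Pool.Agent.Q123.LK Pool.Agent.Q283.FG
open Pool.Agent.Q283.FT (U2 Rt twi df HasN2 Dcl)
open Pool.Agent.Q176.EN (sum_ite_q sum_ite_none vl_D Rl el)
open Pool.Agent.Q283.LQ (Sm Box Nest nS)
open Pool.Agent.Q277.FG.SXX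
open Q44.JQ (rowL clL Sel)

/-- **JOB SXX.** -/
theorem sxx (hBAS : Pool.Agent.Q7.LK.S_BAS) (hSH1 : Pool.Agent.Q283.FG.S_SH1) : Pool.Agent.Q283.FG.S_SXX := by
  classical
  have hB := hBAS
  intro F _ _ ζ hζ y f t₀ u r π B hu0 e c hR hc A R 𝓛 hM D0 ψ w hD0 hw k q hq hS τ hτ D hfit N
  have : Fact (Nat.Prime 2) := ⟨Nat.prime_two⟩
  have hvD : ∀ j, vl 2 (q j) D = 1 := fun j => by
    rw [vl_D hfit.1 (hS j)]
    exact sum_ite_q hq (fun _ => (1 : ZMod 2)) j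
  have hvD0 : ∀ v, ¬ Sm y v → (∀ i, q i ≠ v) → vl 2 v D = 0 := fun v hv h => by
    rw [vl_D hfit.1 hv]
    exact sum_ite_none h _
  have hcl : ∀ (a b : F) (X : (Fin f → U2) × (Fin k → U2)), a ≠ 0 → b ≠ 0 → Rl π u q a (cX X) →
      Rl π u q b (cY X) → (clL τ.1 X ∈ 𝓛 ↔
        (∀ v : HeightOneSpectrum (𝓞 F), Sm y v → A v a b) ∧ ∀ φ : F →+* ℝ, R φ a b) := by
    intro a b X ha hb h h'
    rw [cl_eq]
    exact hM a b (∑ j, (cX X).2 j • τ.1 j, (cX X).1) (∑ j, (cY X).2 j • τ.1 j, (cY X).1) ha hb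
      (nr_rl hB B hS hτ h) (nr_rl hB B hS hτ h')
  have hmem : ∀ X : (Fin f → U2) × (Fin k → U2), X ∈ Sel (djS t₀ c w 𝓛) (NG t₀ τ) τ.1 ↔
      clL τ.1 X ∈ 𝓛 ∧ ∀ j, rowL (djS t₀ c w 𝓛) (NG t₀ τ) τ.1 X j = 0 := by
    intro X
    constructor
    · rintro ⟨h1, h2⟩
      exact ⟨h1, fun j => congrFun h2 j⟩
    · rintro ⟨h1, h2⟩
      exact ⟨h1, funext h2⟩
  -- every class has coordinates
  have step1 : ∀ a b, CondP y A R e D a b → ∃ X ∈ Sel (djS t₀ c w 𝓛) (NG t₀ τ) τ.1,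
      Rl π u q a (cX X) ∧ Rl π u q b (cY X) := by
    intro a b hab
    obtain ⟨ca, hca⟩ := coord hB B hq hS hab.ne.1 fun v hv h => (hab.unr v hv (hvD0 v hv h)).1
    obtain ⟨cb, hcb⟩ := coord hB B hq hS hab.ne.2 fun v hv h => (hab.unr v hv (hvD0 v hv h)).2
    obtain ⟨X, hX⟩ : ∃ X : (Fin f → U2) × (Fin k → U2),
        X = (fun t => (ca t, cb t), fun j => (vl 2 (q j) a, vl 2 (q j) b)) := ⟨_, rfl⟩
    have h1 : Rl π u q a (cX X) := by
      rw [hX]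
      exact hca
    have h2 : Rl π u q b (cY X) := by
      rw [hX]
      exact hcb
    refine ⟨X, (hmem X).2 ⟨(hcl a b X hab.ne.1 hab.ne.2 h1 h2).2 ⟨hab.loc, hab.real⟩, fun j => ?_⟩, h1, h2⟩
    exact (ram_iff hB hSH1 hζ B hu0 hR hc hD0 hw hq hS hτ hfit hab.ne.1 hab.ne.2 h1 h2 𝓛 j).1
      (hab.ram (q j) (hS j) (by rw [hvD j]; exact one_ne_zero))
  -- every solution gives a class
  have step2 : ∀ a b X, a ≠ 0 → b ≠ 0 → X ∈ Sel (djS t₀ c w 𝓛) (NG t₀ τ) τ.1 → Rl π u q a (cX X) →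
      Rl π u q b (cY X) → CondP y A R e D a b := by
    intro a b X ha hb hX h1 h2
    obtain ⟨hX1, hX2⟩ := (hmem X).1 hX
    refine ⟨⟨ha, hb⟩, ?_, ?_, ?_, ?_⟩
    · intro v hv hvd
      have hn : ∀ i, q i ≠ v := by
        rintro i rfl
        rw [hvD i] at hvd
        exact one_ne_zero hvd
      exact ⟨by rw [vl_rel hB B q hS ha h1 hv]; exact sum_ite_none hn _,
        by rw [vl_rel hB B q hS hb h2 hv]; exact sum_ite_none hn _⟩
    · intro v hv hvd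
      by_cases h : ∃ i, q i = v
      · obtain ⟨j, rfl⟩ := h
        exact (ram_iff hB hSH1 hζ B hu0 hR hc hD0 hw hq hS hτ hfit ha hb h1 h2 𝓛 j).2 (hX2 j)
      · push Not at h
        exact absurd (hvD0 v hv h) hvd
    · exact ((hcl a b X ha hb h1 h2).1 hX1).1
    · exact ((hcl a b X ha hb h1 h2).1 hX1).2
  have isPow_div : ∀ {a a' : F}, a' ≠ 0 → Eqv 2 a a' → IsPow 2 (a / a') := by
    intro a a' ha' h
    have h1 := eqv_mul h (eqv_refl (p := 2) a'⁻¹)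
    rw [mul_inv_cancel₀ ha', ← div_eq_mul_inv] at h1
    exact isPow_of h1
  have eqv_div : ∀ {a a' : F}, a ≠ 0 → a' ≠ 0 → IsPow 2 (a / a') → Eqv 2 a a' := by
    intro a a' ha ha' h
    have h1 := eqv_mul (eqv_one_of (div_ne_zero ha ha') h two_ne_zero) (eqv_refl (p := 2) a')
    rwa [div_mul_cancel₀ _ ha', one_mul] at h1
  constructor
  · rintro ⟨a, haP, hne, hall⟩
    have h1 : ∀ i, ∃ X ∈ Sel (djS t₀ c w 𝓛) (NG t₀ τ) τ.1, Rl π u q (a i).1 (cX X) ∧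
        Rl π u q (a i).2 (cY X) := fun i => step1 _ _ (haP i)
    choose X hX hrl hrl' using h1
    have hbij : Function.Bijective (fun i : Fin N =>
        (⟨X i, hX i⟩ : Sel (djS t₀ c w 𝓛) (NG t₀ τ) τ.1)) := by
      constructor
      · intro i i' h
        by_contra hii
        have h2 : X i = X i' := congrArg Subtype.val h
        have h3 := hrl i
        have h4 := hrl' i
        rw [h2] at h3 h4
        exact hne i i' hii ⟨isPow_div (haP i').ne.1 (rl_eqv B h3 (hrl i')),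
          isPow_div (haP i').ne.2 (rl_eqv B h4 (hrl' i'))⟩
      · rintro ⟨X', hX'⟩
        have h2 := step2 (el π u q (cX X')) (el π u q (cY X')) X' (el_ne B hS _) (el_ne B hS _) hX'
          (el_rl B q _) (el_rl B q _)
        obtain ⟨i, hi, hi'⟩ := hall _ _ h2
        refine ⟨i, Subtype.ext ?_⟩
        refine ext_c ?_ ?_
        · exact (rl_uniq hB B q hq hS (el_ne B hS _) (haP i).ne.1
            (eqv_div (el_ne B hS _) (haP i).ne.1 hi) (el_rl B q _) (hrl i)).symm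
        · exact (rl_uniq hB B q hq hS (el_ne B hS _) (haP i).ne.2
            (eqv_div (el_ne B hS _) (haP i).ne.2 hi') (el_rl B q _) (hrl' i)).symm
    have h2 := Nat.card_congr (Equiv.ofBijective _ hbij)
    rw [Nat.card_eq_fintype_card, Fintype.card_fin] at h2
    exact h2
  · intro hN
    have hfin : Finite (Sel (djS t₀ c w 𝓛) (NG t₀ τ) τ.1) := Subtype.finite
    obtain ⟨g⟩ : Nonempty (Fin N ≃ Sel (djS t₀ c w 𝓛) (NG t₀ τ) τ.1) := by
      rw [hN]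
      exact ⟨(Finite.equivFin _).symm⟩
    refine ⟨fun i => (el π u q (cX (g i).1), el π u q (cY (g i).1)),
      fun i => step2 _ _ (g i).1 (el_ne B hS _) (el_ne B hS _) (g i).2 (el_rl B q _) (el_rl B q _),
      fun i j hij h => hij ?_, fun b b' hb => ?_⟩
    · apply g.injective
      apply Subtype.ext
      exact ext_c (rl_uniq hB B q hq hS (el_ne B hS _) (el_ne B hS _)
        (eqv_div (el_ne B hS _) (el_ne B hS _) h.1) (el_rl B q _) (el_rl B q _))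
        (rl_uniq hB B q hq hS (el_ne B hS _) (el_ne B hS _)
        (eqv_div (el_ne B hS _) (el_ne B hS _) h.2) (el_rl B q _) (el_rl B q _))
    · obtain ⟨X, hX, hrl, hrl'⟩ := step1 b b' hb
      refine ⟨g.symm ⟨X, hX⟩, ?_⟩
      change IsPow 2 (b / el π u q (cX (g (g.symm ⟨X, hX⟩)).1)) ∧
        IsPow 2 (b' / el π u q (cY (g (g.symm ⟨X, hX⟩)).1))
      rw [g.apply_symm_apply]
      exact ⟨isPow_div (el_ne B hS _) (rl_eqv B hrl (el_rl B q _)),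
        isPow_div (el_ne B hS _) (rl_eqv B hrl' (el_rl B q _))⟩

end Pool.Agent.Q277.FG
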